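import Pool.Agent.V5helper49.IR.Stm

/-!
# Project IR, job ONE: the probability that `n` is not represented
-/

set_option autoImplicit false

namespace Pool.Agent.V5helper69.IR

open Finset
open Pool.Agent.V5helper49.IR

variable {p : ℕ → ℝ}

lemma EB_mono (hp : ∀ k, 0 ≤ p k ∧ p k ≤ 1) (M : ℕ) : ∀ F G : Finset ℕ → ℝ,
    (∀ B ⊆ range M, F B ≤ G B) → EB p M F ≤ EB p M G := by
  induction M with
  | zero =>
    intro F G h
    exact h ∅ (empty_subset _)
  | succ M ih =>
    intro F G h
    rw [EB, EB]
    have h1 := ih (fun B => F (insert M B)) (fun B => G (insert M B)) fun B hB => by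
      refine h _ (insert_subset (mem_range.2 (Nat.lt_succ_self M)) (hB.trans ?_))
      exact range_subset_range.2 (Nat.le_succ M)
    have h2 := ih F G fun B hB => h B (hB.trans (range_subset_range.2 (Nat.le_succ M)))
    exact add_le_add (mul_le_mul_of_nonneg_left h1 (hp M).1)
      (mul_le_mul_of_nonneg_left h2 (sub_nonneg.2 (hp M).2))

lemma EB_congr (hp : ∀ k, 0 ≤ p k ∧ p k ≤ 1) (M : ℕ) (F G : Finset ℕ → ℝ)
    (h : ∀ B ⊆ range M, F B = G B) : EB p M F = EB p M G :=
  le_antisymm (EB_mono hp M F G fun B hB => (h B hB).le)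
    (EB_mono hp M G F fun B hB => (h B hB).ge)

lemma EB_zero (M : ℕ) : EB p M (fun _ => 0) = 0 := by
  induction M with
  | zero => rfl
  | succ M ih => rw [EB, ih, mul_zero, mul_zero, add_zero]

lemma EB_nonneg (hp : ∀ k, 0 ≤ p k ∧ p k ≤ 1) (M : ℕ) (F : Finset ℕ → ℝ)
    (h : ∀ B, 0 ≤ F B) : 0 ≤ EB p M F := by
  rw [← EB_zero (p := p) M]
  exact EB_mono hp M _ _ fun B _ => h B

/-- Harris' inequality for one coordinate. -/
lemma harris (hp : ∀ k, 0 ≤ p k ∧ p k ≤ 1) (j M : ℕ) : j < M → ∀ F : Finset ℕ → ℝ,
    (∀ B, 0 ≤ F B) → (∀ B x, F (insert x B) ≤ F B) →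
    (1 - p j) * EB p M F ≤ EB p M (fun B => if j ∈ B then 0 else F B) := by
  induction M with
  | zero =>
    intro h
    exact absurd h (Nat.not_lt_zero j)
  | succ M ih =>
    intro hj F h0 hF
    rw [EB, EB]
    rcases Nat.lt_succ_iff_lt_or_eq.1 hj with hlt | heq
    · have h1 := ih hlt (fun B => F (insert M B)) (fun B => h0 _) fun B x => by
        rw [Finset.insert_comm]
        exact hF _ _
      have h2 := ih hlt F h0 hF
      have h3 : EB p M (fun B => if j ∈ insert M B then 0 else F (insert M B)) =
          EB p M (fun B => if j ∈ B then 0 else F (insert M B)) := by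
        congr 1
        funext B
        have h4 : j ∈ insert M B ↔ j ∈ B := by
          rw [mem_insert]
          exact or_iff_right hlt.ne
        simp only [h4]
      rw [h3]
      have h5 := mul_le_mul_of_nonneg_left h1 (hp M).1
      have h6 := mul_le_mul_of_nonneg_left h2 (sub_nonneg.2 (hp M).2)
      nlinarith [h5, h6]
    · subst heq
      have h1 : EB p j (fun B => if j ∈ B then 0 else F B) = EB p j F := by
        refine EB_congr hp j _ _ fun B hB => ?_
        rw [if_neg]
        intro h
        exact absurd (mem_range.1 (hB h)) (lt_irrefl j)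
      have h2 : EB p j (fun B => if j ∈ insert j B then 0 else F (insert j B)) = 0 := by
        refine (EB_congr hp j _ (fun _ => 0) fun B _ => ?_).trans (EB_zero j)
        rw [if_pos (mem_insert_self j B)]
      rw [h1, h2, mul_zero, zero_add]
      have h3 : EB p j (fun B => F (insert j B)) ≤ EB p j F := EB_mono hp j _ _ fun B _ => hF B j
      refine mul_le_mul_of_nonneg_left ?_ (sub_nonneg.2 (hp j).2)
      have h4 := mul_le_mul_of_nonneg_left h3 (hp j).1
      linarith

open Classical in
/-- the factor of `k` -/
noncomputable def hf (p : ℕ → ℝ) (n k : ℕ) : ℝ :=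
  if 2 * k = n then 1 - p k else if n < 2 * k ∧ k ≤ n then 1 - p k * p (n - k) else 1

lemma hf_nonneg (hp : ∀ k, 0 ≤ p k ∧ p k ≤ 1) (n k : ℕ) : 0 ≤ hf p n k := by
  unfold hf
  split_ifs
  · exact sub_nonneg.2 (hp k).2
  · have := mul_le_one₀ (hp k).2 (hp (n - k)).1 (hp (n - k)).2
    linarith
  · exact zero_le_one

lemma zr_insert {n x : ℕ} {B : Finset ℕ} :
    Zr n (insert x B) ↔ Zr n B ∧ x + x ≠ n ∧ ∀ b ∈ B, x + b ≠ n := by
  unfold Zr
  constructor
  · intro h
    exact ⟨fun a ha b hb => h a (mem_insert_of_mem ha) b (mem_insert_of_mem hb),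
      h x (mem_insert_self _ _) x (mem_insert_self _ _),
      fun b hb => h x (mem_insert_self _ _) b (mem_insert_of_mem hb)⟩
  · rintro ⟨h1, h2, h3⟩ a ha b hb
    rcases mem_insert.1 ha with ha1 | ha1
    · rcases mem_insert.1 hb with hb1 | hb1
      · rw [ha1, hb1]
        exact h2
      · rw [ha1]
        exact h3 b hb1
    · rcases mem_insert.1 hb with hb1 | hb1
      · rw [hb1, add_comm]
        exact h3 a ha1
      · exact h1 a ha1 b hb1

open Classical in
lemma step_one (hp : ∀ k, 0 ≤ p k ∧ p k ≤ 1) (n M : ℕ) :
    hf p n M * EB p M (fun B => if Zr n B then 1 else 0) ≤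
      EB p (M + 1) (fun B => if Zr n B then 1 else 0) := by
  have hnn : ∀ B : Finset ℕ, (0 : ℝ) ≤ (if Zr n B then 1 else 0) := fun B => by
    split_ifs
    · exact zero_le_one
    · exact le_rfl
  have hE : 0 ≤ EB p M (fun B => if Zr n B then 1 else 0) := EB_nonneg hp M _ hnn
  rw [EB]
  unfold hf
  by_cases h1 : 2 * M = n
  · rw [if_pos h1]
    have h2 : 0 ≤ EB p M (fun B => if Zr n (insert M B) then 1 else 0) :=
      EB_nonneg hp M _ fun B => hnn _
    have := mul_nonneg (hp M).1 h2
    linarith
  · rw [if_neg h1]
    by_cases h2 : n < 2 * M ∧ M ≤ n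
    · rw [if_pos h2]
      have h3 := harris hp (n - M) M (by omega) (fun B => if Zr n B then 1 else 0) hnn
        (fun B x => by
          by_cases h : Zr n (insert x B)
          · rw [if_pos h, if_pos (zr_insert.1 h).1]
          · rw [if_neg h]
            exact hnn B)
      have h4 : EB p M (fun B => if n - M ∈ B then 0 else if Zr n B then 1 else 0) ≤
          EB p M (fun B => if Zr n (insert M B) then 1 else 0) := by
        refine EB_mono hp M _ _ fun B hB => ?_
        by_cases h5 : n - M ∈ B
        · rw [if_pos h5]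
          exact hnn _
        · rw [if_neg h5]
          by_cases h6 : Zr n B
          · rw [if_pos h6, if_pos]
            refine zr_insert.2 ⟨h6, by omega, fun b hb hbn => h5 ?_⟩
            have : n - M = b := by omega
            rw [this]
            exact hb
          · rw [if_neg h6]
            exact hnn _
      have h5 := mul_le_mul_of_nonneg_left (h3.trans h4) (hp M).1
      nlinarith [h5]
    · rw [if_neg h2, one_mul]
      have h3 : EB p M (fun B => if Zr n B then 1 else 0) ≤
          EB p M (fun B => if Zr n (insert M B) then 1 else 0) := by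
        refine EB_mono hp M _ _ fun B hB => ?_
        by_cases h6 : Zr n B
        · rw [if_pos h6, if_pos]
          refine zr_insert.2 ⟨h6, by omega, fun b hb hbn => h2 ?_⟩
          have := mem_range.1 (hB hb)
          omega
        · rw [if_neg h6]
          exact hnn _
      have h4 := mul_le_mul_of_nonneg_left h3 (hp M).1
      linarith

open Classical in
lemma prod_le_EB (hp : ∀ k, 0 ≤ p k ∧ p k ≤ 1) (n M : ℕ) :
    ∏ k ∈ range M, hf p n k ≤ EB p M (fun B => if Zr n B then 1 else 0) := by
  induction M with
  | zero =>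
    rw [prod_range_zero, EB, if_pos]
    intro a ha
    exact absurd ha (notMem_empty a)
  | succ M ih =>
    rw [prod_range_succ, mul_comm]
    exact (mul_le_mul_of_nonneg_left ih (hf_nonneg hp n M)).trans (step_one hp n M)

lemma exp_le_one_sub {δ x : ℝ} (hδ : 0 < δ) (h0 : 0 ≤ x) (h1 : x ≤ 1 - δ) :
    Real.exp (-(x / δ)) ≤ 1 - x := by
  have h2 : 0 < 1 - x := by linarith
  have h3 : (1 - x)⁻¹ ≤ Real.exp (x / δ) := by
    have h4 : (1 - x)⁻¹ = x / (1 - x) + 1 := by
      field_simp
      ring
    rw [h4]
    refine (Real.add_one_le_exp _).trans (Real.exp_le_exp.2 ?_)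
    exact div_le_div_of_nonneg_left h0 hδ (by linarith)
  rw [Real.exp_neg]
  exact inv_le_of_inv_le₀ h2 h3

theorem t_ONE : Pool.Agent.V5helper49.IR.S_ONE := by
  classical
  intro p hp δ hδ M n hM hpk
  refine le_trans ?_ (prod_le_EB hp n M)
  -- the exponents
  set e : ℕ → ℝ := fun k => (if k = n / 2 then p (n / 2) else 0) +
    (if k ≤ n then p k * p (n - k) else 0) with he
  have hpp : ∀ k, 0 ≤ p k * p (n - k) := fun k => mul_nonneg (hp k).1 (hp _).1
  have hk : ∀ k ∈ range M, Real.exp (-(e k / δ)) ≤ hf p n k := by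
    intro k _
    have hmono : ∀ x : ℝ, x ≤ e k → Real.exp (-(e k / δ)) ≤ Real.exp (-(x / δ)) := by
      intro x hx
      exact Real.exp_le_exp.2 (neg_le_neg (div_le_div_of_nonneg_right hx hδ.le))
    unfold hf
    by_cases h1 : 2 * k = n
    · rw [if_pos h1]
      have h2 : k ≤ n := by omega
      have h3 : n - k = k := by omega
      have h4 : p k ≤ 1 - δ := by
        rcases hpk k h2 with h | h
        · exact h
        · rwa [h3] at h
      refine (hmono (p k) ?_).trans (exp_le_one_sub hδ (hp k).1 h4)
      have h5 : k = n / 2 := by omega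
      rw [he]
      simp only
      rw [if_pos h5, ← h5, if_pos h2]
      linarith [hpp k]
    · rw [if_neg h1]
      by_cases h2 : n < 2 * k ∧ k ≤ n
      · rw [if_pos h2]
        have h4 : p k * p (n - k) ≤ 1 - δ := by
          rcases hpk k h2.2 with h | h
          · exact (mul_le_of_le_one_right (hp k).1 (hp _).2).trans h
          · exact (mul_le_of_le_one_left (hp _).1 (hp k).2).trans h
        refine (hmono (p k * p (n - k)) ?_).trans (exp_le_one_sub hδ (hpp k) h4)
        rw [he]
        simp only
        rw [if_pos h2.2]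
        have : (0 : ℝ) ≤ if k = n / 2 then p (n / 2) else 0 := by
          split_ifs
          · exact (hp _).1
          · exact le_rfl
        linarith
      · rw [if_neg h2]
        have h3 : 0 ≤ e k := by
          rw [he]
          simp only
          refine add_nonneg ?_ ?_
          · split_ifs
            · exact (hp _).1
            · exact le_rfl
          · split_ifs
            · exact hpp k
            · exact le_rfl
        refine (hmono 0 h3).trans ?_
        rw [zero_div, neg_zero, Real.exp_zero]
  have hsum : ∑ k ∈ range M, e k = lam p n := by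
    rw [he, sum_add_distrib, sum_ite_eq' (range M) (n / 2) fun _ => p (n / 2),
      if_pos (mem_range.2 (by omega)), ← sum_filter]
    have h1 : (range M).filter (fun k => k ≤ n) = range (n + 1) := by
      ext k
      simp only [mem_filter, mem_range]
      omega
    rw [h1, add_comm]
    rfl
  have h1 : Real.exp (-(lam p n / δ)) = ∏ k ∈ range M, Real.exp (-(e k / δ)) := by
    rw [← Real.exp_sum, sum_neg_distrib, ← sum_div, hsum]
  rw [h1]
  exact prod_le_prod (fun k _ => (Real.exp_pos _).le) hk

end Pool.Agent.V5helper69.IR
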